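import Pool.Agent.Helper630.Szego.Final

open MeasureTheory Filter Topology
open scoped ENNReal
open Pool.Agent.Helper630.Szego

namespace Pool.Agent.Results.MP_3b4bb3_an.NotSzego

/-- For all finite-dimensional `N`, `M` with `0 < dim N ≤ dim M` there is `χ` in `𝔹_a(M,N)` whose
boundary function `X` satisfies `det (I - X* X) > 0` almost everywhere and
`∫ log det (I - X* X) dm = -∞`. -/
theorem result (N M : Type*) [NormedAddCommGroup N] [InnerProductSpace ℂ N] [CompleteSpace N]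
    [FiniteDimensional ℂ N] [NormedAddCommGroup M] [InnerProductSpace ℂ M] [CompleteSpace M]
    [FiniteDimensional ℂ M] (hN : 0 < Module.finrank ℂ N) (hNM : Module.finrank ℂ N ≤ Module.finrank ℂ M) :
    ∃ χ : ℂ → M →L[ℂ] N, InBa χ ∧ ∃ X : TT → M →L[ℂ] N, IsBoundary χ X ∧ (∀ᵐ θ, 0 < szDet (X θ)) ∧
      ∫⁻ θ, ENNReal.ofReal (-Real.log (szDet (X θ))) = ∞ :=
  main N M hN hNM

end Pool.Agent.Results.MP_3b4bb3_an.NotSzego
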